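import Pool.Agent.Helper25.HL.Goals3

/-!
# Project HL: decompositions of vectors of small level norm (`S_LD`)
-/

set_option autoImplicit false

namespace Pool.Agent.Helper96.HL

open Pool.Agent.Helper25.HL

theorem ld : S_LD := by
  intro p q σ J r hr z hz
  have h4J : (4 : ℝ) ^ J = (2 ^ J) ^ 2 := by
    rw [← pow_mul, mul_comm, pow_mul]
    norm_num
  have hsq : (lnm σ J r z) ^ 2 ≤ 1 / 4 ^ J := by
    calc (lnm σ J r z) ^ 2 ≤ (1 / 2 ^ J) ^ 2 := pow_le_pow_left₀ (lnm_nn σ J r z) hz 2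
      _ = 1 / 4 ^ J := by rw [h4J, div_pow, one_pow]
  refine ⟨?_, fun j hj1 hjJ => ?_⟩
  · calc pq2 z ≤ 4 ^ J * (lnm σ J r z) ^ 2 := pq2_le_lnm σ J r z
      _ ≤ 4 ^ J * (1 / 4 ^ J) := by gcongr
      _ = 1 := by field_simp
  · have h1 : (4 : ℝ) ^ j / 4 ^ J * (Kj σ r j z) ^ 2 ≤ (lnm σ J r z) ^ 2 := by
      unfold lnm
      rw [Real.sq_sqrt (Finset.sum_nonneg fun j _ => by positivity)]
      exact Finset.single_le_sum (f := fun j => (4 : ℝ) ^ j / 4 ^ J * (Kj σ r j z) ^ 2)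
        (fun j _ => by positivity) (Finset.mem_range.2 (Nat.lt_succ_of_le hjJ))
    have h2 : Kj σ r j z = KK σ (r j) z := by
      unfold Kj
      rw [if_neg (by omega)]
    rw [h2] at h1
    have h4j : (4 : ℝ) ^ j = (2 ^ j) ^ 2 := by
      rw [← pow_mul, mul_comm, pow_mul]
      norm_num
    have h3 : (2 ^ j * KK σ (r j) z) ^ 2 ≤ 1 := by
      have h5 := h1.trans hsq
      have h6 : (4 : ℝ) ^ j / 4 ^ J * (KK σ (r j) z) ^ 2 =
          (2 ^ j * KK σ (r j) z) ^ 2 * (1 / 4 ^ J) := by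
        rw [mul_pow, ← h4j]
        ring
      rw [h6] at h5
      have h7 : (0 : ℝ) < 1 / 4 ^ J := by positivity
      nlinarith [le_of_mul_le_mul_right (by linarith : (2 ^ j * KK σ (r j) z) ^ 2 * (1 / 4 ^ J) ≤
        1 * (1 / 4 ^ J)) h7]
    have h2j : (0 : ℝ) < 2 ^ j := by positivity
    have h4 : KK σ (r j) z < 2 / 2 ^ j := by
      have h5 : 2 ^ j * KK σ (r j) z ≤ 1 := by
        nlinarith [mul_nonneg h2j.le (KK_nn σ (r j) z)]
      rw [lt_div_iff₀ h2j]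
      linarith
    unfold KK at h4
    obtain ⟨β, hβ⟩ := exists_lt_of_ciInf_lt h4
    have hc : 0 ≤ 2 / (2 : ℝ) ^ j := by positivity
    have hnn : 0 ≤ pq2 (z - Gm σ β) := pq2_nn _
    have hnn2 : 0 ≤ (l1 β) ^ 2 / r j := div_nonneg (sq_nonneg _) (hr j).le
    have h5 : pq2 (z - Gm σ β) + (l1 β) ^ 2 / r j ≤ (2 / 2 ^ j) ^ 2 := by
      rw [← Real.sqrt_le_left hc]
      exact hβ.le
    refine ⟨β, by linarith, ?_⟩
    have h6 : (l1 β) ^ 2 ≤ (2 / 2 ^ j) ^ 2 * r j := by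
      rw [← div_le_iff₀ (hr j)]
      linarith
    have h7 : (2 / 2 ^ j) ^ 2 * r j = (2 / 2 ^ j * Real.sqrt (r j)) ^ 2 := by
      rw [mul_pow, Real.sq_sqrt (hr j).le]
    rw [h7] at h6
    exact le_of_sq_le_sq h6 (by positivity)

end Pool.Agent.Helper96.HL
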