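import Pool.Agent.Helper25.HL.Goals4
import Pool.Agent.Helper46.LS.NU

/-!
# Project HL: combination of the representations of the levels (`S_NUC`)
-/

set_option autoImplicit false

namespace Pool.Agent.Helper96.HL

open Pool.Agent.Helper25.HL

theorem nuc_gen (X : Type) [NormedAddCommGroup X] [NormedSpace ℂ X] [CompleteSpace X]
    (TT : ℕ → X → X) (n : ℕ → ℕ) (F : ∀ k, Fin (n k) → (X →L[ℂ] ℂ)) (v : ∀ k, Fin (n k) → X)
    (c : ℕ → ℝ) (h1 : ∀ k x, ∑ m, F k m x • v k m = TT k x) (h2 : ∀ k, ∑ m, F k m (v k m) = 0)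
    (h3 : ∀ k, ∑ m, ‖F k m‖ * ‖v k m‖ ≤ c k) (hc : Summable c) :
    ∃ (f : ℕ → (X →L[ℂ] ℂ)) (x : ℕ → X) (T : X →L[ℂ] X),
      Summable (fun i => ‖f i‖ * ‖x i‖) ∧ (∀ y, T y = ∑' i, f i y • x i) ∧
      ∑' i, f i (x i) = 0 ∧ ∀ y, HasSum (fun k => TT k y) (T y) := by
  classical
  let e : (Σ k, Fin (n k)) → ℕ := Encodable.encode
  have he : Function.Injective e := Encodable.encode_injective
  let F' : (Σ k, Fin (n k)) → (X →L[ℂ] ℂ) := fun a => F a.1 a.2
  let v' : (Σ k, Fin (n k)) → X := fun a => v a.1 a.2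
  let f : ℕ → (X →L[ℂ] ℂ) := Function.extend e F' 0
  let x : ℕ → X := Function.extend e v' 0
  have hf : ∀ a, f (e a) = F' a := fun a => he.extend_apply _ _ a
  have hx : ∀ a, x (e a) = v' a := fun a => he.extend_apply _ _ a
  have hf0 : ∀ i, i ∉ Set.range e → f i = 0 := fun i hi => by
    show Function.extend e F' 0 i = 0
    rw [Function.extend_apply' _ _ _ hi]
    rfl
  have hSn : Summable fun a : (Σ k, Fin (n k)) => ‖F' a‖ * ‖v' a‖ := by
    rw [summable_sigma_of_nonneg fun a => by positivity]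
    refine ⟨fun k => Summable.of_finite, ?_⟩
    refine Summable.of_nonneg_of_le (fun k => ?_) (fun k => ?_) hc
    · exact tsum_nonneg fun m => by positivity
    · rw [tsum_fintype]
      exact h3 k
  have hS1 : Summable fun i => ‖f i‖ * ‖x i‖ := by
    rw [← he.summable_iff (f := fun i => ‖f i‖ * ‖x i‖)]
    · refine hSn.congr fun a => ?_
      show ‖F' a‖ * ‖v' a‖ = ‖f (e a)‖ * ‖x (e a)‖
      rw [hf, hx]
    · intro i hi
      rw [hf0 i hi, norm_zero, zero_mul]
  obtain ⟨T, hT, -, -⟩ := Pool.Agent.Helper46.LS.nu X f x hS1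
  have hST : ∀ y, HasSum (fun a : (Σ k, Fin (n k)) => F' a y • v' a) (T y) := by
    intro y
    have h4 : Summable fun a : (Σ k, Fin (n k)) => F' a y • v' a := by
      refine Summable.of_norm_bounded (g := fun a => ‖F' a‖ * ‖v' a‖ * ‖y‖) (hSn.mul_right _)
        fun a => ?_
      rw [norm_smul]
      calc ‖F' a y‖ * ‖v' a‖ ≤ ‖F' a‖ * ‖y‖ * ‖v' a‖ := by
            gcongr
            exact (F' a).le_opNorm y
        _ = ‖F' a‖ * ‖v' a‖ * ‖y‖ := by ring
    have h5 : ∑' i, f i y • x i = ∑' a, F' a y • v' a := by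
      rw [← he.tsum_eq (f := fun i => f i y • x i)]
      · refine tsum_congr fun a => ?_
        rw [hf, hx]
      · intro i hi
        by_contra hcon
        apply hi
        show f i y • x i = 0
        rw [hf0 i hcon]
        simp
    rw [hT, h5]
    exact h4.hasSum
  refine ⟨f, x, T, hS1, hT, ?_, fun y => ?_⟩
  · have h4 : Summable fun a : (Σ k, Fin (n k)) => F' a (v' a) :=
      Summable.of_norm_bounded (g := fun a => ‖F' a‖ * ‖v' a‖) hSn
        fun a => (F' a).le_opNorm _
    have h5 : ∑' i, f i (x i) = ∑' a, F' a (v' a) := by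
      rw [← he.tsum_eq (f := fun i => f i (x i))]
      · refine tsum_congr fun a => ?_
        rw [hf, hx]
      · intro i hi
        by_contra hcon
        apply hi
        show f i (x i) = 0
        rw [hf0 i hcon]
        rfl
    rw [h5]
    have h6 := h4.hasSum.sigma (g := fun _ => (0 : ℂ)) fun k => by
      have h7 := hasSum_fintype fun m : Fin (n k) => F k m (v k m)
      rw [h2 k] at h7
      exact h7
    exact h6.unique hasSum_zero
  · refine (hST y).sigma fun k => ?_
    have h7 := hasSum_fintype fun m : Fin (n k) => F k m y • v k m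
    rw [h1 k y] at h7
    exact h7

theorem nuc : S_NUC := by
  intro P D c hF hc
  choose n F v h1 h2 h3 using hF
  exact nuc_gen (XX P D) (fun k => TT P D k) n F v c h1 h2 h3 hc

end Pool.Agent.Helper96.HL
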